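import Pool.Agent.Lib.MP_688fd0_co.TF.Iface5

/-!
# Theorem F, module LVUNG: uniform levels given invariant data
-/

namespace Pool.Agent.Lib.MP_688fd0_co.TF.H48

open Pool.Agent.Lib.MP_688fd0_co.TE

universe u v

/-- Module LVUNG. -/
theorem lvung : LVUNG_S.{u, v} := by
  intro Ω _ I _ _ m _ μ sh f H hμ hf hH
  have hN : (0 : ℝ) < Fintype.card (I → ZMod m) := by
    exact_mod_cast Fintype.card_pos
  have h1 : ∀ s : I → ZMod m, ∑ ω, μ ω * H ω (f ω + s) = ∑ ω, μ ω * H ω (f ω) := by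
    intro s
    rw [← Equiv.sum_comp (sh s) (fun ω => μ ω * H ω (f ω))]
    refine Finset.sum_congr rfl fun ω _ => ?_
    rw [hμ, hH, hf]
  have h2 : ∀ ω, ∑ l, H ω l = ∑ s, H ω (f ω + s) := fun ω =>
    (Equiv.sum_comp (Equiv.addLeft (f ω)) (H ω)).symm
  have h3 : ∑ ω, μ ω * ∑ l, H ω l = Fintype.card (I → ZMod m) * ∑ ω, μ ω * H ω (f ω) := by
    simp only [h2, Finset.mul_sum]
    rw [Finset.sum_comm]
    simp only [h1]
    rw [Finset.sum_const, Finset.card_univ, nsmul_eq_mul, Finset.mul_sum]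
  unfold Ex unifW
  have h4 : ∀ ω, μ ω * ∑ l, 1 / (Fintype.card (I → ZMod m) : ℝ) * H ω l =
      (Fintype.card (I → ZMod m) : ℝ)⁻¹ * (μ ω * ∑ l, H ω l) := by
    intro ω
    rw [← Finset.mul_sum]
    ring
  simp only [h4]
  rw [← Finset.mul_sum, h3, ← mul_assoc, inv_mul_cancel₀ hN.ne', one_mul]

end Pool.Agent.Lib.MP_688fd0_co.TF.H48
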