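import Pool.Agent.Lib.MP_688fd0_co.TF.Iface3
import Pool.Agent.Lib.MP_688fd0_co.TE.H67.Rlaw

/-!
# Theorem F, module RLAWF: the transport law with a reweighted mid slot
-/

set_option linter.unusedSectionVars false

namespace Pool.Agent.Lib.MP_688fd0_co.TF.H48

open Pool.Agent.Lib.MP_688fd0_co.TE Pool.Agent.Lib.MP_688fd0_co.TE.H67

universe u v

section main

variable {V : Type u} {Val : Type v} [Fintype V] [Fintype Val] [DecidableEq V] {a : ℕ} (M : LM V Val a)
  (jm : ℕ) {T : ℕ} (W : V → Prop) (ω : Fin T → Fld a V Val) (t : Fin T) (x y : V) (lam : ℝ)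

theorem pw_nonneg (l : List (V × Val)) (j : ℕ) (v y : V) : 0 ≤ M.pw j v l y := by
  induction l generalizing j v with
  | nil => exact M.hC0 _ _ _
  | cons s l ih => exact mul_nonneg (mul_nonneg (M.hC0 _ _ _) (M.hk0 _ _ _)) (ih _ _)

theorem fk_nonneg (j r : ℕ) (x y : V) : 0 ≤ M.fk j r x y :=
  sumL_nonneg _ _ fun _ _ => pw_nonneg M _ _ _ _

theorem kb_nonneg (v : V) : 0 ≤ M.kb jm x v :=
  Finset.sum_nonneg fun _ _ => Finset.sum_nonneg fun _ _ =>
    mul_nonneg (mul_nonneg (fk_nonneg M _ _ _ _) (M.hk0 _ _ _)) (ind_nonneg _)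

theorem kc_nonneg (v : V) : 0 ≤ M.kc jm v y := fk_nonneg M _ _ _ _

theorem SY_nonneg (w : Fld a V Val) (v : V) : 0 ≤ M.SY jm w y v :=
  Finset.sum_nonneg fun _ _ => Finset.sum_nonneg fun _ _ =>
    mul_nonneg (mul_nonneg (lw_nonneg M _ _ _ _) (kc_nonneg M _ _ _)) (M.hC0 _ _ _)

/-- front part: functions of the first `jm + 1` sites -/
theorem front (hjm : jm < a) (hl : 0 < lam)
    (hmw : ∀ s, 0 ≤ M.mw jm x y s ∧ M.mw jm x y s * M.kc jm (M.ex s.1 s.2) y ≤
      M.kb jm x (M.ex s.1 s.2))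
    (Φ : List (V × Val) → ℝ) (h0 : ∀ z, 0 ≤ Φ z)
    (h1 : ∀ z l, z.length = jm + 1 → Φ (z ++ l) = Φ z) :
    sumL a (fun z => M.pr jm x y z * M.xw (ω t) 0 z * ind (M.goodm jm ω W lam t x y z) * Φ z) ≤
      lam * sumL (jm + 1) (fun z => vv M (ω t) 0 (M.C 0 x) z (M.kb jm x) * Φ z) := by
  have ha : a = (jm + 1) + (a - 1 - jm) := by omega
  have e0 : sumL a (fun z => M.pr jm x y z * M.xw (ω t) 0 z *
      ind (M.goodm jm ω W lam t x y z) * Φ z) =
      sumL ((jm + 1) + (a - 1 - jm)) (fun z => M.pr jm x y z * M.xw (ω t) 0 z *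
        ind (M.goodm jm ω W lam t x y z) * Φ z) := by rw [← ha]
  rw [e0, sumL_add, ← sumL_mul]
  refine sumL_mono _ _ _ fun z hz => ?_
  obtain ⟨z0, s, rfl⟩ : ∃ z0 s, z = z0 ++ [s] := by
    rcases List.eq_nil_or_concat z with h | ⟨z0, s, h⟩
    · rw [h] at hz; simp at hz
    · exact ⟨z0, s, by rw [h, List.concat_eq_append]⟩
  have hz0 : z0.length = jm := by simpa using hz
  set cf : ℝ := ww M (ω t) 0 x (z0 ++ [s]) (fun _ => 1) with hcf
  have hcf0 : 0 ≤ cf := ww_nonneg M (ω t) _ (fun _ => zero_le_one) _ _ _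
  have hvv : vv M (ω t) 0 (M.C 0 x) (z0 ++ [s]) (M.kb jm x) =
      cf * M.kb jm x (M.ex s.1 s.2) := by
    have : vv M (ω t) 0 (M.C 0 x) (z0 ++ [s]) (M.kb jm x) =
        ww M (ω t) 0 x (z0 ++ [s]) (M.kb jm x) := by
      cases z0 with
      | nil => rfl
      | cons s0 z0 => rfl
    rw [this, ww_last, ← hcf]
  rw [hvv]
  have hs : ∀ l : List (V × Val), (z0 ++ [s] ++ l)[jm]? = some s := by
    intro l
    rw [List.append_assoc, List.getElem?_append_right (by omega)]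
    simp [hz0]
  set m : ℝ := M.mw jm x y s with hm
  have hm0 : 0 ≤ m := (hmw s).1
  set c : Prop := M.ZYm jm (ω t) (M.ex s.1 s.2) y ≤ lam * M.kc jm (M.ex s.1 s.2) y with hc
  have h2 : ∀ l : List (V × Val), l.length = a - 1 - jm →
      M.pr jm x y (z0 ++ [s] ++ l) * M.xw (ω t) 0 (z0 ++ [s] ++ l) *
        ind (M.goodm jm ω W lam t x y (z0 ++ [s] ++ l)) * Φ (z0 ++ [s] ++ l) ≤
      (cf * Φ (z0 ++ [s]) * m * ind c) *
        (M.pw (jm + 1) (M.ex s.1 s.2) l y * M.xw (ω t) (jm + 1) l) := by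
    intro l hl
    have hlen : 0 + (z0 ++ [s] ++ l).length = a := by
      rw [List.length_append, hz, hl]; omega
    have hlen2 : jm + 1 + l.length = a := by rw [hl]; omega
    have hpr : M.pr jm x y (z0 ++ [s] ++ l) * M.xw (ω t) 0 (z0 ++ [s] ++ l) =
        m * (M.pw 0 x (z0 ++ [s] ++ l) y * M.xw (ω t) 0 (z0 ++ [s] ++ l)) := by
      rw [LM.pr, LM.gm, hs l]
      show M.pw 0 x (z0 ++ [s] ++ l) y * m * _ = _
      ring
    rw [hpr, h1 _ l hz, pw_xw, pw_xw, ww_append, hlen, hlen2, ww_last, hz, Nat.zero_add, ← hcf]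
    have h3 : ind (M.goodm jm ω W lam t x y (z0 ++ [s] ++ l)) ≤ ind c :=
      ind_mono fun hg => (hg.2.2.2 s (hs l)).2
    have h4 : 0 ≤ ww M (ω t) (jm + 1) (M.ex s.1 s.2) l (fun w => M.C a w y) :=
      ww_nonneg M (ω t) _ (fun w => M.hC0 _ _ _) _ _ _
    calc m * (cf * ww M (ω t) (jm + 1) (M.ex s.1 s.2) l (fun w => M.C a w y)) *
          ind (M.goodm jm ω W lam t x y (z0 ++ [s] ++ l)) * Φ (z0 ++ [s])
        = (m * cf * ww M (ω t) (jm + 1) (M.ex s.1 s.2) l (fun w => M.C a w y) *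
          Φ (z0 ++ [s])) * ind (M.goodm jm ω W lam t x y (z0 ++ [s] ++ l)) := by ring
      _ ≤ (m * cf * ww M (ω t) (jm + 1) (M.ex s.1 s.2) l (fun w => M.C a w y) *
          Φ (z0 ++ [s])) * ind c :=
        mul_le_mul_of_nonneg_left h3 (mul_nonneg (mul_nonneg (mul_nonneg hm0 hcf0) h4) (h0 _))
      _ = _ := by ring
  refine (sumL_mono _ _ _ h2).trans ?_
  rw [sumL_mul]
  change (cf * Φ (z0 ++ [s]) * m * ind c) * M.ZYm jm (ω t) (M.ex s.1 s.2) y ≤
    lam * (cf * M.kb jm x (M.ex s.1 s.2) * Φ (z0 ++ [s]))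
  have h5 : ind c * M.ZYm jm (ω t) (M.ex s.1 s.2) y ≤ lam * M.kc jm (M.ex s.1 s.2) y := by
    by_cases h : c
    · rw [ind_of h, one_mul]; exact h
    · rw [ind_not h, zero_mul]; exact mul_nonneg hl.le (kc_nonneg M _ _ _)
  have h7 := mul_le_mul_of_nonneg_left h5 hm0
  have h8 : m * (lam * M.kc jm (M.ex s.1 s.2) y) ≤ lam * M.kb jm x (M.ex s.1 s.2) := by
    have := mul_le_mul_of_nonneg_left (hmw s).2 hl.le
    calc _ = lam * (m * M.kc jm (M.ex s.1 s.2) y) := by ring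
      _ ≤ _ := this
  have h6 := mul_le_mul_of_nonneg_left (h7.trans h8) (mul_nonneg hcf0 (h0 (z0 ++ [s])))
  calc _ = cf * Φ (z0 ++ [s]) * (m * (ind c * M.ZYm jm (ω t) (M.ex s.1 s.2) y)) := by ring
    _ ≤ _ := h6
    _ = _ := by ring

/-- back part: functions of the sites at the slots `jm, ..., a - 1` -/
theorem back (hjm : jm < a) (hl : 0 < lam)
    (hmw : ∀ s, 0 ≤ M.mw jm x y s ∧ M.mw jm x y s * M.ka jm x s.1 ≤
      2 * M.kc jm (M.ex s.1 s.2) y)
    (Φ Ψ : List (V × Val) → ℝ) (h0 : ∀ z, 0 ≤ Ψ z)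
    (h1 : ∀ z l, z.length = jm → Φ (z ++ l) = Ψ l) :
    sumL a (fun z => M.pr jm x y z * M.xw (ω t) 0 z * ind (M.goodm jm ω W lam t x y z) * Φ z) ≤
      2 * lam * ∑ s : V × Val, M.lw (ω t) jm s.1 s.2 * M.kc jm (M.ex s.1 s.2) y *
        sumL (a - 1 - jm) (fun l => ww M (ω t) (jm + 1) (M.ex s.1 s.2) l (fun v => M.C a v y) *
          Ψ (s :: l)) := by
  have ha : a = jm + ((a - 1 - jm) + 1) := by omega
  have e0 : sumL a (fun z => M.pr jm x y z * M.xw (ω t) 0 z *
      ind (M.goodm jm ω W lam t x y z) * Φ z) =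
      sumL (jm + ((a - 1 - jm) + 1)) (fun z => M.pr jm x y z * M.xw (ω t) 0 z *
        ind (M.goodm jm ω W lam t x y z) * Φ z) := by rw [← ha]
  rw [e0, sumL_add, sumL_comm, sumL, Finset.mul_sum]
  refine Finset.sum_le_sum fun s _ => ?_
  have e1 : 2 * lam * (M.lw (ω t) jm s.1 s.2 * M.kc jm (M.ex s.1 s.2) y *
      sumL (a - 1 - jm) (fun l => ww M (ω t) (jm + 1) (M.ex s.1 s.2) l (fun v => M.C a v y) *
        Ψ (s :: l))) = sumL (a - 1 - jm) (fun l => (2 * lam * (M.lw (ω t) jm s.1 s.2 *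
        M.kc jm (M.ex s.1 s.2) y)) * (ww M (ω t) (jm + 1) (M.ex s.1 s.2) l
        (fun v => M.C a v y) * Ψ (s :: l))) := by
    rw [sumL_mul]; ring
  rw [e1]
  refine sumL_mono _ _ _ fun l hl' => ?_
  set m : ℝ := M.mw jm x y s with hm
  have hm0 : 0 ≤ m := (hmw s).1
  set cf : ℝ := M.lw (ω t) jm s.1 s.2 *
    ww M (ω t) (jm + 1) (M.ex s.1 s.2) l (fun v => M.C a v y) with hcf
  have hcf0 : 0 ≤ cf :=
    mul_nonneg (lw_nonneg _ _ _ _ _) (ww_nonneg M (ω t) _ (fun w => M.hC0 _ _ _) _ _ _)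
  set c : Prop := M.ZXm jm (ω t) x s.1 ≤ lam * M.ka jm x s.1 with hc
  have h2 : ∀ z1 : List (V × Val), z1.length = jm →
      M.pr jm x y (z1 ++ s :: l) * M.xw (ω t) 0 (z1 ++ s :: l) *
        ind (M.goodm jm ω W lam t x y (z1 ++ s :: l)) * Φ (z1 ++ s :: l) ≤
      (cf * Ψ (s :: l) * m * ind c) * (M.pw 0 x z1 s.1 * M.xw (ω t) 0 z1) := by
    intro z1 hz1
    have hlen : 0 + (z1 ++ s :: l).length = a := by
      rw [List.length_append, hz1, List.length_cons, hl']; omega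
    have hs : (z1 ++ s :: l)[jm]? = some s := by
      rw [List.getElem?_append_right (by omega)]
      simp [hz1]
    have hw : ∀ w, ww M (ω t) jm w (s :: l) (fun w => M.C a w y) = cf * M.C jm w s.1 := by
      intro w
      rw [ww, hcf]
      ring
    have hc' : ∀ (l' : List (V × Val)) (j : ℕ) (v : V) (c : ℝ) (H : V → ℝ),
        ww M (ω t) j v l' (fun w => c * H w) = c * ww M (ω t) j v l' H := by
      intro l'
      induction l' with
      | nil => intro j v c H; rfl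
      | cons s' l' ih => intro j v c H; rw [ww, ww, ih]; ring
    have hpr : M.pr jm x y (z1 ++ s :: l) * M.xw (ω t) 0 (z1 ++ s :: l) =
        m * (M.pw 0 x (z1 ++ s :: l) y * M.xw (ω t) 0 (z1 ++ s :: l)) := by
      rw [LM.pr, LM.gm, hs]
      show M.pw 0 x (z1 ++ s :: l) y * m * _ = _
      ring
    rw [hpr, h1 _ _ hz1, pw_xw, pw_xw, ww_append, hlen, hz1, Nat.zero_add]
    simp only [hw]
    rw [hc']
    have h3 : ind (M.goodm jm ω W lam t x y (z1 ++ s :: l)) ≤ ind c :=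
      ind_mono fun hg => (hg.2.2.2 s hs).1
    have h4 : 0 ≤ ww M (ω t) 0 x z1 (fun w => M.C jm w s.1) :=
      ww_nonneg M (ω t) _ (fun w => M.hC0 _ _ _) _ _ _
    calc m * (cf * ww M (ω t) 0 x z1 (fun w => M.C jm w s.1)) *
          ind (M.goodm jm ω W lam t x y (z1 ++ s :: l)) * Ψ (s :: l)
        = (m * cf * ww M (ω t) 0 x z1 (fun w => M.C jm w s.1) * Ψ (s :: l)) *
          ind (M.goodm jm ω W lam t x y (z1 ++ s :: l)) := by ring
      _ ≤ (m * cf * ww M (ω t) 0 x z1 (fun w => M.C jm w s.1) * Ψ (s :: l)) * ind c :=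
        mul_le_mul_of_nonneg_left h3 (mul_nonneg (mul_nonneg (mul_nonneg hm0 hcf0) h4) (h0 _))
      _ = _ := by ring
  refine (sumL_mono _ _ _ h2).trans ?_
  rw [sumL_mul]
  change (cf * Ψ (s :: l) * m * ind c) * M.ZXm jm (ω t) x s.1 ≤ _
  have h5 : ind c * M.ZXm jm (ω t) x s.1 ≤ lam * M.ka jm x s.1 := by
    by_cases h : c
    · rw [ind_of h, one_mul]; exact h
    · rw [ind_not h, zero_mul]; exact mul_nonneg hl.le (fk_nonneg M _ _ _ _)
  have h7 := mul_le_mul_of_nonneg_left h5 hm0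
  have h8 : m * (lam * M.ka jm x s.1) ≤ 2 * lam * M.kc jm (M.ex s.1 s.2) y := by
    have := mul_le_mul_of_nonneg_left (hmw s).2 hl.le
    calc _ = lam * (m * M.ka jm x s.1) := by ring
      _ ≤ _ := this
      _ = _ := by ring
  have h6 := mul_le_mul_of_nonneg_left (h7.trans h8) (mul_nonneg hcf0 (h0 (s :: l)))
  calc _ = cf * Ψ (s :: l) * (m * (ind c * M.ZXm jm (ω t) x s.1)) := by ring
    _ ≤ _ := h6
    _ = _ := by rw [hcf]; ring

/-- the mid site is summed out -/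
theorem sum_SY (w : Fld a V Val) (H : V → ℝ) (n : ℕ) (Ψ : List (V × Val) → ℝ) :
    ∑ s : V × Val, M.lw w jm s.1 s.2 * M.kc jm (M.ex s.1 s.2) y *
        sumL (n + 1) (fun l => ww M w (jm + 1) (M.ex s.1 s.2) l H * Ψ l) =
      sumL (n + 1) (fun l => vv M w (jm + 1) (M.SY jm w y) l H * Ψ l) := by
  have e : ∀ s : V × Val, M.lw w jm s.1 s.2 * M.kc jm (M.ex s.1 s.2) y *
      sumL (n + 1) (fun l => ww M w (jm + 1) (M.ex s.1 s.2) l H * Ψ l) =
      sumL (n + 1) (fun l => (M.lw w jm s.1 s.2 * M.kc jm (M.ex s.1 s.2) y) *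
        (ww M w (jm + 1) (M.ex s.1 s.2) l H * Ψ l)) := fun s => by rw [sumL_mul]
  simp only [e]
  rw [← sumL_sum]
  refine sumL_congr _ _ _ fun l hl => ?_
  obtain ⟨s1, l, rfl⟩ : ∃ s1 l', l = s1 :: l' := by
    cases l with
    | nil => simp at hl
    | cons s1 l => exact ⟨s1, l, rfl⟩
  rw [vv, LM.SY, Fintype.sum_prod_type]
  simp only [Finset.sum_mul]
  refine Finset.sum_congr rfl fun u _ => Finset.sum_congr rfl fun e' _ => ?_
  rw [ww]
  ring

/-- division by `Zgm` -/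
theorem R_le {q : ℝ} (hq : 0 < q) (hl : 0 < lam) (hf : (3 / 4 : ℝ) * q ≤ M.Fm jm x y)
    (hZ : M.Fm jm x y / 4 ≤ M.Zgm jm ω W lam t x y) (Φ : List (V × Val) → ℝ) (E : ℝ)
    (hE : 0 ≤ E)
    (h : sumL a (fun z => M.pr jm x y z * M.xw (ω t) 0 z *
      ind (M.goodm jm ω W lam t x y z) * Φ z) ≤ 2 * lam * E) :
    sumL a (fun z => M.Rm jm ω W lam t x y z * Φ z) ≤ 12 * lam / q * E := by
  have hZ0 : 0 < M.Zgm jm ω W lam t x y := by linarith
  have e : ∀ z, M.Rm jm ω W lam t x y z * Φ z = (M.Zgm jm ω W lam t x y)⁻¹ *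
      (M.pr jm x y z * M.xw (ω t) 0 z * ind (M.goodm jm ω W lam t x y z) * Φ z) := by
    intro z
    rw [LM.Rm]
    field_simp
  simp only [e]
  rw [sumL_mul, inv_mul_le_iff₀ hZ0]
  refine h.trans ?_
  have h1 : (3 / 16 : ℝ) * q ≤ M.Zgm jm ω W lam t x y := by linarith
  have h2 : 0 ≤ 12 * lam / q * E := by positivity
  have h3 := mul_le_mul_of_nonneg_right h1 h2
  refine le_trans ?_ h3
  have h4 : (3 / 16 : ℝ) * q * (12 * lam / q * E) = 9 / 4 * lam * E := by
    field_simp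
    ring
  rw [h4]
  nlinarith [mul_nonneg hl.le hE]

end main

/-- Module RLAWF. -/
theorem rlawf (hrho : RHOF_S.{u, v}) : RLAWF_S.{u, v} := by
  intro V Val _ _ _ a M jm lam q T W ω t x y hjm hl hq hf hZ
  have hZ0 : 0 < M.Zgm jm ω W lam t x y := by linarith
  obtain ⟨r1, r2, r3, _⟩ := hrho V Val a M jm hjm x y
  have hA : ∀ s, 0 ≤ M.mw jm x y s ∧ M.mw jm x y s * M.kc jm (M.ex s.1 s.2) y ≤
      M.kb jm x (M.ex s.1 s.2) := fun s => ⟨(r1 s).1, (r1 s).2.2.1⟩
  have hB : ∀ s, 0 ≤ M.mw jm x y s ∧ M.mw jm x y s * M.ka jm x s.1 ≤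
      2 * M.kc jm (M.ex s.1 s.2) y := fun s => ⟨(r1 s).1, (r1 s).2.2.2.2⟩
  have hxw : ∀ (l : List (V × Val)) (j : ℕ), 0 ≤ M.xw (ω t) j l := by
    intro l
    induction l with
    | nil => intro j; exact zero_le_one
    | cons s l ih => intro j; exact mul_nonneg (div_nonneg (ind_nonneg _) (M.hP0 _ _)) (ih _)
  refine ⟨?_, ?_, ?_, ?_, ?_, ?_, ?_, ?_⟩
  · intro z
    exact div_nonneg (mul_nonneg (mul_nonneg (r3 z).1 (hxw _ _)) (ind_nonneg _)) hZ0.le
  · have e : ∀ z, M.Rm jm ω W lam t x y z = (M.Zgm jm ω W lam t x y)⁻¹ *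
        (M.pr jm x y z * M.xw (ω t) 0 z * ind (M.goodm jm ω W lam t x y z)) := by
      intro z
      rw [LM.Rm]
      field_simp
    have e1 : M.Rm jm ω W lam t x y = fun z => (M.Zgm jm ω W lam t x y)⁻¹ *
        (M.pr jm x y z * M.xw (ω t) 0 z * ind (M.goodm jm ω W lam t x y z)) := funext e
    rw [e1, sumL_mul]
    exact inv_mul_cancel₀ hZ0.ne'
  · intro z _ hz
    have h1 : M.pr jm x y z * M.xw (ω t) 0 z * ind (M.goodm jm ω W lam t x y z) ≠ 0 := by
      intro h
      apply hz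
      rw [LM.Rm, h, zero_div]
    have h2 : ind (M.goodm jm ω W lam t x y z) ≠ 0 := right_ne_zero_of_mul h1
    have h3 := left_ne_zero_of_mul h1
    have h4 : M.pr jm x y z ≠ 0 := left_ne_zero_of_mul h3
    rw [LM.pr] at h4
    refine ⟨?_, left_ne_zero_of_mul h4, right_ne_zero_of_mul h3⟩
    by_contra hg
    exact h2 (ind_not hg)
  · intro j s hj
    have h1 := front M jm W ω t x y lam hjm hl hA (fun z => ind (z[j]? = some s))
      (fun z => ind_nonneg _) (fun z l hz => by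
        rw [List.getElem?_append_left (by omega)])
    have e : jm + 1 = j + 1 + (jm - j) := by omega
    rw [e, sum_one, Nat.zero_add] at h1
    have hE := mul_nonneg (mul_nonneg
      (Fn_nonneg M (ω t) _ (fun w => M.hC0 0 x w) 0 j s.1) (lw_nonneg M (ω t) j s.1 s.2))
      (Gn_nonneg M (ω t) _ (kb_nonneg M jm x) (jm - j) (j + 1) (M.ex s.1 s.2))
    have h2 := R_le M jm W ω t x y lam hq hl hf hZ _ _ hE
      (h1.trans (by nlinarith [mul_nonneg hl.le hE]))
    refine h2.trans (le_of_eq ?_)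
    rw [LM.lx]
    ring
  · intro j s hj1 hj2
    have h1 := back M jm W ω t x y lam hjm hl hB (fun z => ind (z[j]? = some s))
      (fun z => ind (z.tail[j - jm - 1]? = some s))
      (fun z => ind_nonneg _) (fun z l hz => by
        rw [List.getElem?_append_right (by omega), hz]
        congr 2
        cases l with
        | nil => simp
        | cons s' l =>
          have : j - jm = (j - jm - 1) + 1 := by omega
          rw [this]
          simp)
    simp only [List.tail_cons] at h1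
    have e : a - 1 - jm = (a - 2 - jm) + 1 := by omega
    rw [e, sum_SY] at h1
    have e' : a - 2 - jm + 1 = (j - jm - 1) + 1 + (a - 1 - j) := by omega
    have e2 : jm + 1 + (j - jm - 1) = j := by omega
    rw [e', sum_one, e2] at h1
    have hE := mul_nonneg (mul_nonneg
      (Fn_nonneg M (ω t) _ (fun w => SY_nonneg M jm y (ω t) w) (jm + 1) (j - jm - 1) s.1)
      (lw_nonneg M (ω t) j s.1 s.2))
      (Gn_nonneg M (ω t) _ (fun w => M.hC0 a w y) (a - 1 - j) (j + 1) (M.ex s.1 s.2))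
    have h2 := R_le M jm W ω t x y lam hq hl hf hZ _ _ hE h1
    refine h2.trans (le_of_eq ?_)
    rw [LM.ly, LM.FYm]
    ring
  · intro j s s' hj
    have h1 := front M jm W ω t x y lam hjm hl hA
      (fun z => ind (z[j]? = some s ∧ z[j + 1]? = some s'))
      (fun z => ind_nonneg _) (fun z l hz => by
        rw [List.getElem?_append_left (by omega), List.getElem?_append_left (by omega)])
    have e : jm + 1 = j + 2 + (jm - (j + 1)) := by omega
    rw [e, sum_two, Nat.zero_add] at h1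
    have hE := mul_nonneg (mul_nonneg (mul_nonneg (mul_nonneg
      (Fn_nonneg M (ω t) _ (fun w => M.hC0 0 x w) 0 j s.1) (lw_nonneg M (ω t) j s.1 s.2))
      (M.hC0 (j + 1) (M.ex s.1 s.2) s'.1)) (lw_nonneg M (ω t) (j + 1) s'.1 s'.2))
      (Gn_nonneg M (ω t) _ (kb_nonneg M jm x) (jm - (j + 1)) (j + 2) (M.ex s'.1 s'.2))
    have h2 := R_le M jm W ω t x y lam hq hl hf hZ _ _ hE
      (h1.trans (by nlinarith [mul_nonneg hl.le hE]))
    refine h2.trans (le_of_eq ?_)
    rw [LM.lx]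
    ring
  · intro j s s' hj1 hj2
    have h1 := back M jm W ω t x y lam hjm hl hB
      (fun z => ind (z[j]? = some s ∧ z[j + 1]? = some s'))
      (fun z => ind (z.tail[j - jm - 1]? = some s ∧ z.tail[j - jm - 1 + 1]? = some s'))
      (fun z => ind_nonneg _) (fun z l hz => by
        rw [List.getElem?_append_right (by omega), List.getElem?_append_right (by omega), hz]
        cases l with
        | nil => simp
        | cons s'' l =>
          have h3 : j - jm = (j - jm - 1) + 1 := by omega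
          have h4 : j + 1 - jm = (j - jm - 1 + 1) + 1 := by omega
          rw [h4, List.getElem?_cons_succ, h3, List.getElem?_cons_succ]
          simp)
    simp only [List.tail_cons] at h1
    have e : a - 1 - jm = (a - 2 - jm) + 1 := by omega
    rw [e, sum_SY] at h1
    have e' : a - 2 - jm + 1 = (j - jm - 1) + 2 + (a - 1 - (j + 1)) := by omega
    have e2 : jm + 1 + (j - jm - 1) = j := by omega
    rw [e', sum_two, e2] at h1
    have hE := mul_nonneg (mul_nonneg (mul_nonneg (mul_nonneg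
      (Fn_nonneg M (ω t) _ (fun w => SY_nonneg M jm y (ω t) w) (jm + 1) (j - jm - 1) s.1)
      (lw_nonneg M (ω t) j s.1 s.2))
      (M.hC0 (j + 1) (M.ex s.1 s.2) s'.1)) (lw_nonneg M (ω t) (j + 1) s'.1 s'.2))
      (Gn_nonneg M (ω t) _ (fun w => M.hC0 a w y) (a - 1 - (j + 1)) (j + 2) (M.ex s'.1 s'.2))
    have h2 := R_le M jm W ω t x y lam hq hl hf hZ _ _ hE h1
    refine h2.trans (le_of_eq ?_)
    rw [LM.ly, LM.FYm]
    ring
  · intro s s' hja
    classical
    have h1 := back M jm W ω t x y lam hjm hl hB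
      (fun z => ind (z[jm]? = some s ∧ z[jm + 1]? = some s'))
      (fun z => ind (z[0]? = some s ∧ z[1]? = some s'))
      (fun z => ind_nonneg _) (fun z l hz => by
        have e3 : jm + 1 - jm = 1 := by omega
        rw [List.getElem?_append_right (by omega), List.getElem?_append_right (by omega), hz, e3,
          Nat.sub_self])
    rw [Finset.sum_eq_single s] at h1
    rotate_left
    · intro s1 _ hs1
      have h2 : ∀ l : List (V × Val), ind ((s1 :: l)[0]? = some s ∧ (s1 :: l)[1]? = some s') = 0 :=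
        fun l => ind_not (fun h => hs1 (by simpa using h.1))
      simp only [h2, mul_zero, sumL_zero]
    · intro h; exact absurd (Finset.mem_univ _) h
    have e : a - 1 - jm = (a - 2 - jm) + 1 := by omega
    have h3 : sumL (a - 1 - jm) (fun l => ww M (ω t) (jm + 1) (M.ex s.1 s.2) l
        (fun v => M.C a v y) * ind ((s :: l)[0]? = some s ∧ (s :: l)[1]? = some s')) =
        M.C (jm + 1) (M.ex s.1 s.2) s'.1 * M.lw (ω t) (jm + 1) s'.1 s'.2 *
        M.Gn (ω t) (fun v => M.C a v y) (a - 2 - jm) (jm + 2) (M.ex s'.1 s'.2) := by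
      rw [e, sumL, Finset.sum_eq_single s']
      · rw [Gn_eq, ← sumL_mul]
        refine sumL_congr _ _ _ fun l _ => ?_
        rw [ind_of (by simp), mul_one, ww]
      · intro s1 _ hs1
        have h2 : ∀ l : List (V × Val), ind ((s :: s1 :: l)[0]? = some s ∧
            (s :: s1 :: l)[1]? = some s') = 0 := fun l =>
          ind_not (fun h => hs1 (by simpa using h.2))
        simp only [h2, mul_zero, sumL_zero]
      · intro h; exact absurd (Finset.mem_univ _) h
    rw [h3] at h1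
    have hE : 0 ≤ M.lw (ω t) jm s.1 s.2 * M.kc jm (M.ex s.1 s.2) y *
        (M.C (jm + 1) (M.ex s.1 s.2) s'.1 * M.lw (ω t) (jm + 1) s'.1 s'.2 *
        M.Gn (ω t) (fun v => M.C a v y) (a - 2 - jm) (jm + 2) (M.ex s'.1 s'.2)) :=
      mul_nonneg (mul_nonneg (lw_nonneg _ _ _ _ _) (kc_nonneg M _ _ _))
        (mul_nonneg (mul_nonneg (M.hC0 _ _ _) (lw_nonneg _ _ _ _ _))
          (Gn_nonneg M (ω t) _ (fun w => M.hC0 a w y) _ _ _))
    have h2 := R_le M jm W ω t x y lam hq hl hf hZ _ _ hE h1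
    refine h2.trans (le_of_eq ?_)
    rw [LM.lz]
    ring

end Pool.Agent.Lib.MP_688fd0_co.TF.H48
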